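import Pool.Agent.V60.LamBad

/-!
# The Liouville function cannot be predicted by finite-state machines

A machine with finitely many states reads `λ(1), λ(2), …` one after the other and, before it reads the
next value, it announces a guess, which depends on its state only.  Every machine with at most `S`
states makes a positive proportion `δ(S)` of wrong guesses, at every large scale; more precisely, in
almost all windows of bounded length it makes a wrong guess.  The same holds if the values are read
backwards, and if the reading starts at a place `A` with an arbitrary state.  In particular, for every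
`m` and every rule `F`, which may depend on `n` modulo `q`, the recurrence
`λ(n + m) = F_{n mod q} (λ(n), …, λ(n + m - 1))` fails for a positive proportion of the `n ≤ N`, for all
large `N`; the rules `F = ± (product of its arguments)` give nontrivial bounds for the sums
`∑ λ(n) λ(n + 1) ⋯ λ(n + m)` of the problem.
-/

set_option autoImplicit false

namespace Pool.Agent.Results.MP_a14ce1_nt.FiniteStatePrediction

open Finset Pool.Agent

/-- the Liouville function -/
def lam (n : ℕ) : ℤ := (-1) ^ ArithmeticFunction.cardFactors n

/-- A machine with the set of states `Q`: the transition function, the guess announced in each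
state, and the initial state. -/
structure Machine (Q : Type) where
  next : Q → ℤ → Q
  guess : Q → ℤ
  start : Q

/-- The state of the machine after it has read `r 1, …, r i`. -/
def Machine.state {Q : Type} (M : Machine Q) (r : ℕ → ℤ) : ℕ → Q
  | 0 => M.start
  | i + 1 => M.next (M.state r i) (r (i + 1))

/-- The wrong guesses for `r 1, …, r n`: the numbers `i < n` such that the guess for `r (i + 1)`,
announced when the machine has read `r 1, …, r i`, is wrong. -/
def Machine.errors {Q : Type} (M : Machine Q) (r : ℕ → ℤ) (n : ℕ) : Finset ℕ :=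
  (range n).filter (fun i => M.guess (M.state r i) ≠ r (i + 1))

/-- The sequence `λ(A + 1), λ(A + 2), …` -/
def ahead (A : ℕ) : ℕ → ℤ := fun i => lam (A + i)

/-- The sequence `λ(A + n), λ(A + n - 1), …, λ(A + 1)` -/
def back (A n : ℕ) : ℕ → ℤ := fun i => lam (A + n + 1 - i)

lemma state_eq {Q : Type} (M : Machine Q) (r s : ℕ → ℤ) (A : ℕ) (h : ∀ i, r (i + 1) = s (A + i + 1))
    (i : ℕ) : M.state r i = V60.FSP.st M.next s M.start A i := by
  induction i with
  | zero => rfl
  | succ i ih =>
    rw [V60.FSP.st_step, ← ih, ← h]
    rfl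

lemma errors_eq {Q : Type} [Fintype Q] (M : Machine Q) (r s : ℕ → ℤ) (A : ℕ)
    (h : ∀ i, r (i + 1) = s (A + i + 1)) (n : ℕ) :
    (M.errors r n).card = V60.FSP.err M.next M.guess s M.start A n := by
  unfold Machine.errors V60.FSP.err
  congr 1
  apply Finset.filter_congr
  intro i _
  rw [state_eq M r s A h, h]

/-- the sign as a truth value -/
def sg (b : Bool) : ℤ := if b then 1 else -1

/-- the shift register as a machine: the state consists of the index modulo `q` and of the last `m`
values -/
def register (q m : ℕ) (hq : 0 < q) (F : ℕ → (Fin m → ℤ) → ℤ) : Machine (Fin q × (Fin m → Bool)) where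
  next w d := (⟨((w.1 : ℕ) + 1) % q, Nat.mod_lt _ hq⟩,
    fun j => if h : (j : ℕ) + 1 < m then w.2 ⟨j + 1, h⟩ else decide (d = 1))
  guess w := F w.1 (fun j => sg (w.2 j))
  start := (⟨1 % q, Nat.mod_lt _ hq⟩, fun j => decide (lam (j + 1) = 1))

lemma sg_lam (n : ℕ) : sg (decide (lam n = 1)) = lam n := by
  rcases V60.LamBad.lam_sign n with h | h
  · have h' : lam n = 1 := h
    rw [h']; rfl
  · have h' : lam n = -1 := h
    rw [h']; rfl

lemma register_state (q m : ℕ) (hq : 0 < q) (F : ℕ → (Fin m → ℤ) → ℤ) (i : ℕ) :
    ((((register q m hq F).state (ahead m) i).1 : ℕ) = (i + 1) % q) ∧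
    ∀ j : Fin m, sg (((register q m hq F).state (ahead m) i).2 j) = lam (i + 1 + j) := by
  induction i with
  | zero =>
    refine ⟨by simp [Machine.state, register], fun j => ?_⟩
    show sg (decide (lam (j + 1) = 1)) = _
    rw [sg_lam]
    congr 1
    omega
  | succ i ih =>
    refine ⟨?_, fun j => ?_⟩
    · show ((((register q m hq F).state (ahead m) i).1 : ℕ) + 1) % q = _
      rw [ih.1, Nat.mod_add_mod]
    · show sg (if h : (j : ℕ) + 1 < m then ((register q m hq F).state (ahead m) i).2 ⟨j + 1, h⟩ else
        decide (lam (m + (i + 1)) = 1)) = _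
      by_cases h : (j : ℕ) + 1 < m
      · rw [dif_pos h, ih.2]
        congr 1
        show i + 1 + (j + 1) = _
        omega
      · rw [dif_neg h, sg_lam]
        congr 1
        have := j.isLt
        omega

lemma register_errors (q m : ℕ) (hq : 0 < q) (F : ℕ → (Fin m → ℤ) → ℤ) (N : ℕ) :
    ((register q m hq F).errors (ahead m) N).card =
      ((Icc 1 N).filter (fun n => F (n % q) (fun j => lam (n + j)) ≠ lam (n + m))).card := by
  unfold Machine.errors
  have hg : ∀ i, (register q m hq F).guess ((register q m hq F).state (ahead m) i) =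
      F ((i + 1) % q) (fun j => lam (i + 1 + j)) := by
    intro i
    show F (((register q m hq F).state (ahead m) i).1 : ℕ) _ = _
    rw [(register_state q m hq F i).1]
    congr 1
    funext j
    exact (register_state q m hq F i).2 j
  refine Finset.card_bij (fun i _ => i + 1) ?_ ?_ ?_
  · intro i hi
    rw [mem_filter, mem_range, hg] at hi
    rw [mem_filter, mem_Icc]
    refine ⟨⟨by omega, by omega⟩, ?_⟩
    have h1 := hi.2
    have e1 : ahead m (i + 1) = lam (i + 1 + m) := by
      unfold ahead
      congr 1
      omega
    rwa [e1] at h1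
  · intro i _ j _ h
    omega
  · intro i hi
    rw [mem_filter, mem_Icc] at hi
    obtain ⟨k, rfl⟩ : ∃ k, i = k + 1 := ⟨i - 1, by omega⟩
    refine ⟨k, ?_, rfl⟩
    rw [mem_filter, mem_range, hg]
    refine ⟨by omega, ?_⟩
    have e1 : ahead m (k + 1) = lam (k + 1 + m) := by
      unfold ahead
      congr 1
      omega
    rw [e1]
    exact hi.2

/-- **The Liouville function cannot be predicted by finite-state machines.**
(1) For all `S`, `B` and `ε > 0` there is a length `L` such that for every machine with at most `S`
states which reads `λ(A + 1), …, λ(A + n)`, where `n` is large and `A ≤ B n`, all but `ε n` of the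
windows of length `L` contain a wrong guess.
(2) For all `S`, `B` there is `δ > 0` such that every machine with at most `S` states makes at least
`δ n` wrong guesses for `λ(A + 1), …, λ(A + n)`, and at least `δ n` wrong guesses if these values are
read backwards, for all large `n` and all `A ≤ B n`.
(3) If the guesses are signs, then the correlation of the guesses with the values is at most
`(1 - 2 δ) n` in absolute value.
(4) For all `q > 0` and `m` there is `δ > 0` such that for every rule `F`, depending on `n` modulo `q`,
and all large `N` the recurrence `λ(n + m) = F_{n mod q} (λ(n), …, λ(n + m - 1))` fails for at least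
`δ N` of the `n ≤ N`. -/
theorem result :
    (∀ (S : ℕ) (B ε : ℝ), 0 ≤ B → 0 < ε → ∃ L n₀ : ℕ, ∀ (Q : Type) [Fintype Q],
      Fintype.card Q ≤ S → ∀ (M : Machine Q) (A n : ℕ), n₀ ≤ n → (A : ℝ) ≤ B * n →
      ({u : ℕ | u < n ∧ ∀ i, u ≤ i → i < u + L → i ∉ M.errors (ahead A) n}.ncard : ℝ) ≤ ε * n) ∧
    (∀ (S : ℕ) (B : ℝ), 0 ≤ B → ∃ δ : ℝ, 0 < δ ∧ ∃ n₀ : ℕ, ∀ (Q : Type) [Fintype Q],
      Fintype.card Q ≤ S → ∀ (M : Machine Q) (A n : ℕ), n₀ ≤ n → (A : ℝ) ≤ B * n →
      δ * n ≤ (M.errors (ahead A) n).card ∧ δ * n ≤ (M.errors (back A n) n).card ∧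
      ((∀ x, M.guess x = 1 ∨ M.guess x = -1) →
        |((∑ i ∈ range n, M.guess (M.state (ahead A) i) * lam (A + (i + 1)) : ℤ) : ℝ)| ≤
          (1 - 2 * δ) * n)) ∧
    (∀ q m : ℕ, 0 < q → ∃ δ : ℝ, 0 < δ ∧ ∃ N₀ : ℕ, ∀ F : ℕ → (Fin m → ℤ) → ℤ, ∀ N : ℕ, N₀ ≤ N →
      δ * N ≤ ((Icc 1 N).filter (fun n => F (n % q) (fun j => lam (n + j)) ≠ lam (n + m))).card) := by
  have hF := V60.LamBad.few_bad_lam
  have hah : ∀ A i, ahead A (i + 1) = V60.LamBad.lam (A + i + 1) := fun A i => rfl
  refine ⟨fun S B ε hB hε => ?_, fun S B hB => ?_, fun q m hq => ?_⟩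
  · obtain ⟨L, n₀, h⟩ := V60.LamMach.windows V60.LamBad.lam hF S B ε hB hε
    refine ⟨L, n₀, fun Q _ hQ M A n hn hA => ?_⟩
    classical
    refine le_trans (le_of_eq ?_) (h Q hQ M.next M.guess M.start A n hn hA)
    rw [← Set.ncard_coe_finset]
    congr 2
    ext u
    rw [mem_coe, mem_filter, mem_range, Set.mem_ofPred_eq]
    refine and_congr_right fun _ => forall_congr' fun i => ⟨fun h1 h2 h3 h4 => ?_, fun h1 h2 h3 h4 => ?_⟩
    · by_contra hne
      apply h1 h2 h3
      unfold Machine.errors
      rw [mem_filter, mem_range, state_eq M (ahead A) V60.LamBad.lam A (hah A)]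
      exact ⟨h4, hne⟩
    · unfold Machine.errors at h4
      rw [mem_filter, mem_range, state_eq M (ahead A) V60.LamBad.lam A (hah A)] at h4
      exact h4.2 (h1 h2 h3 h4.1)
  · obtain ⟨δ₁, hδ₁, n₁, h₁⟩ := V60.LamMach.forward V60.LamBad.lam hF S B hB
    obtain ⟨δ₂, hδ₂, n₂, h₂⟩ := V60.LamMach.backward V60.LamBad.lam hF S B hB
    have hfor : ∀ (Q : Type) [Fintype Q], Fintype.card Q ≤ S → ∀ (M : Machine Q) (A n : ℕ),
        max n₁ n₂ ≤ n → (A : ℝ) ≤ B * n → min δ₁ δ₂ * n ≤ (M.errors (ahead A) n).card := by
      intro Q _ hQ M A n hn hA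
      rw [errors_eq M (ahead A) V60.LamBad.lam A (hah A)]
      refine le_trans ?_ (h₁ Q hQ M.next M.guess M.start A n ((le_max_left _ _).trans hn) hA)
      exact mul_le_mul_of_nonneg_right (min_le_left _ _) (Nat.cast_nonneg n)
    refine ⟨min δ₁ δ₂, lt_min hδ₁ hδ₂, max n₁ n₂, fun Q _ hQ M A n hn hA =>
      ⟨hfor Q hQ M A n hn hA, ?_, fun hM => ?_⟩⟩
    · rw [errors_eq M (back A n) (fun k => V60.LamBad.lam (A + n + 1 - k)) 0 (fun i => by
        show lam (A + n + 1 - (i + 1)) = V60.LamBad.lam (A + n + 1 - (0 + i + 1))
        rw [Nat.zero_add]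
        rfl)]
      refine le_trans ?_ (h₂ Q hQ M.next M.guess M.start A n ((le_max_right _ _).trans hn) hA)
      exact mul_le_mul_of_nonneg_right (min_le_right _ _) (Nat.cast_nonneg n)
    · -- the machine with the opposite guesses
      have a1 := hfor Q hQ M A n hn hA
      have a2 := hfor Q hQ ⟨M.next, fun x => - M.guess x, M.start⟩ A n hn hA
      have hst : ∀ i, Machine.state ⟨M.next, fun x => - M.guess x, M.start⟩ (ahead A) i =
          M.state (ahead A) i := by
        intro i
        induction i with
        | zero => rfl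
        | succ i ih =>
          show M.next (Machine.state ⟨M.next, fun x => - M.guess x, M.start⟩ (ahead A) i) _ = _
          rw [ih]
          rfl
      have hsum : ∀ n : ℕ, (∑ i ∈ range n, M.guess (M.state (ahead A) i) * lam (A + (i + 1)) : ℤ) =
          n - 2 * (M.errors (ahead A) n).card ∧
          (M.errors (ahead A) n).card +
            (Machine.errors ⟨M.next, fun x => - M.guess x, M.start⟩ (ahead A) n).card = n := by
        intro n
        unfold Machine.errors
        simp only [hst]
        induction n with
        | zero => simp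
        | succ n ih =>
          rw [sum_range_succ, ih.1, range_add_one, filter_insert, filter_insert]
          have hl : ahead A (n + 1) = lam (A + (n + 1)) := rfl
          have h2 := V60.LamBad.lam_sign (A + (n + 1))
          have h2' : lam (A + (n + 1)) = 1 ∨ lam (A + (n + 1)) = -1 := h2
          have hni : n ∉ (range n).filter (fun i => M.guess (M.state (ahead A) i) ≠ ahead A (i + 1)) := by
            simp
          have hni' : n ∉ (range n).filter
              (fun i => - M.guess (M.state (ahead A) i) ≠ ahead A (i + 1)) := by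
            simp
          rw [hl]
          rcases hM (M.state (ahead A) n) with h3 | h3 <;> rcases h2' with h4 | h4 <;>
            rw [h3, h4]
          · rw [if_neg (by norm_num), if_pos (by norm_num), card_insert_of_notMem hni']
            refine ⟨by push_cast; ring, by omega⟩
          · rw [if_pos (by norm_num), if_neg (by norm_num), card_insert_of_notMem hni]
            refine ⟨by push_cast; ring, by omega⟩
          · rw [if_pos (by norm_num), if_neg (by norm_num), card_insert_of_notMem hni]
            refine ⟨by push_cast; ring, by omega⟩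
          · rw [if_neg (by norm_num), if_pos (by norm_num), card_insert_of_notMem hni']
            refine ⟨by push_cast; ring, by omega⟩
      obtain ⟨h3, h4⟩ := hsum n
      rw [h3]
      have h4r : ((M.errors (ahead A) n).card : ℝ) +
            (Machine.errors ⟨M.next, fun x => - M.guess x, M.start⟩ (ahead A) n).card = n := by
        exact_mod_cast h4
      push_cast
      rw [abs_le]
      constructor <;> linarith
  · obtain ⟨δ, hδ, n₀, h⟩ := V60.LamMach.forward V60.LamBad.lam hF (q * 2 ^ m) 1 (by norm_num)
    refine ⟨δ, hδ, max n₀ m, fun F N hN => ?_⟩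
    rw [← register_errors q m hq F N, errors_eq _ (ahead m) V60.LamBad.lam m (hah m)]
    refine h _ ?_ _ _ _ m N ((le_max_left _ _).trans hN) ?_
    · rw [Fintype.card_prod, Fintype.card_fun, Fintype.card_fin, Fintype.card_fin, Fintype.card_bool]
    · rw [one_mul]
      exact_mod_cast (le_max_right _ _).trans hN

end Pool.Agent.Results.MP_a14ce1_nt.FiniteStatePrediction
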