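import Pool.Agent.TH893.CL.Twist
import Pool.Agent.V11290.FD.Corr
import Pool.Agent.V11290.FD.Win

/-!
# Products of `k` consecutive values of the Liouville function, for all lengths `k` near `t α + s`, for almost every `α` of
a set of positive Fourier dimension

Let `μ` be ANY compactly supported probability measure on the line whose Fourier transform decays like some power, with an
arbitrarily small exponent `σ > 0`. (Such measures live on many sets of Lebesgue measure zero and of arbitrarily small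
dimension: on the badly approximable numbers with bounded partial quotients (Kaufman), on the sets of `τ`-well approximable
numbers (Kaufman), on limit sets of convex cocompact Fuchsian groups (Bourgain, Dyatlov), on random Salem sets, ...). For
almost every `α` ALL lengths `k` near `t j α + s j` are such that the sums of the products of `k` consecutive values of the
Liouville function, also with arbitrary bounded weights, are at most half as large as the trivial bound, up to a factor
`log ^ (-U) (t j)`.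

Proof: the law of a random rounding of `t α` has a small characteristic function away from the integers (a Fourier series
with the coefficients `sinc²`). The bound for correlations with random shifts of the library W93.AU is applied to it, then
the lemma of Borel and Cantelli, and then the pairing of `n` with `n + 1` of the library TH893.CL (starting files).
-/

set_option autoImplicit false

namespace Pool.Agent.Results.MP_a14ce1_nt.FourierDecay

open Finset MeasureTheory

/-- The product `λ(n) λ(n + 1) ... λ(n + k - 1)` of `k` consecutive values of the Liouville function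
`λ(n) = (-1) ^ Ω(n)`. -/
noncomputable def prodL (k n : ℕ) : ℝ := ∏ j ∈ range k, (-1 : ℝ) ^ ArithmeticFunction.cardFactors (n + j)

/-- the Liouville function with real values -/
noncomputable def lr (n : ℕ) : ℝ := (-1 : ℝ) ^ ArithmeticFunction.cardFactors n

lemma lr_pm (n : ℕ) : lr n = 1 ∨ lr n = -1 := neg_one_pow_eq_or ℝ _

lemma lr_abs (n : ℕ) : |lr n| = 1 := by
  rcases lr_pm n with h | h <;> rw [h] <;> simp

/-- the four weights -/
noncomputable def tw (ξ : ℕ → ℂ) (i n : ℕ) : ℝ :=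
  (if i % 2 = 0 then (ξ n).re else (ξ n).im) * (if i < 2 then (ξ (n + 1)).re else (ξ (n + 1)).im) * lr n

lemma tw_le (ξ : ℕ → ℂ) (hξ : ∀ n, ‖ξ n‖ ≤ 1) (i n : ℕ) : |tw ξ i n| ≤ 1 := by
  unfold tw
  rw [abs_mul, abs_mul, lr_abs, mul_one]
  have h1 : |if i % 2 = 0 then (ξ n).re else (ξ n).im| ≤ 1 := by
    split_ifs
    · exact (Complex.abs_re_le_norm _).trans (hξ n)
    · exact (Complex.abs_im_le_norm _).trans (hξ n)
  have h2 : |if i < 2 then (ξ (n + 1)).re else (ξ (n + 1)).im| ≤ 1 := by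
    split_ifs
    · exact (Complex.abs_re_le_norm _).trans (hξ (n + 1))
    · exact (Complex.abs_im_le_norm _).trans (hξ (n + 1))
  calc _ ≤ (1 : ℝ) * 1 := mul_le_mul h1 h2 (abs_nonneg _) zero_le_one
    _ = 1 := mul_one 1

lemma sum_Ioc_sub' {E : Type*} [AddCommGroup E] (f : ℕ → E) {Y X : ℕ} (h : Y ≤ X) :
    ∑ n ∈ Ioc Y X, f n = ∑ n ∈ Icc 1 X, f n - ∑ n ∈ Icc 1 Y, f n := by
  have h1 : ∀ Z : ℕ, Icc 1 Z = Ioc 0 Z := by intro Z; ext n; simp only [mem_Icc, mem_Ioc]; omega
  rw [h1, h1, ← sum_Ioc_consecutive f (Nat.zero_le Y) h]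
  abel

open Pool.Agent.H373R2.T7 in
/-- from the bounds for the correlations to the sums of products -/
lemma half_of (k : ℕ) (N : ℝ) (ξ : ℕ → ℂ) (hξ : ∀ n, ‖ξ n‖ ≤ 1) (M : ℝ)
    (h : ∀ i < 4, ∀ X : ℕ, (X : ℝ) ≤ N → ‖∑ n ∈ Icc 1 X, ((tw ξ i n : ℝ) : ℂ) * exI liR ((n : ℤ) + k)‖ ≤ M) :
    ∀ Y X : ℕ, Y ≤ X → (X : ℝ) ≤ N → ‖∑ n ∈ Ioc Y X, ξ n * (prodL k n : ℂ)‖ ≤ ((X : ℝ) - Y) / 2 + 4 * M + 1 := by
  intro Y X hYX hX
  have hYr : (Y : ℝ) ≤ N := by
    have : (Y : ℝ) ≤ X := by exact_mod_cast hYX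
    linarith
  have key : ∀ i < 4, |∑ n ∈ Ioc Y X, tw ξ i n * lr (n + k)| ≤ 2 * M := by
    intro i hi
    have h1 : ∀ Z : ℕ, (Z : ℝ) ≤ N → ‖∑ n ∈ Icc 1 Z, ((tw ξ i n * lr (n + k) : ℝ) : ℂ)‖ ≤ M := by
      intro Z hZ
      refine le_trans (le_of_eq ?_) (h i hi Z hZ)
      congr 1
      apply sum_congr rfl
      intro n hn
      rw [mem_Icc] at hn
      have h2 : exI liR ((n : ℤ) + k) = ((lr (n + k) : ℝ) : ℂ) := by
        unfold exI liR lr
        rw [if_pos (by omega)]
        have h3 : ((n : ℤ) + (k : ℤ)).toNat = n + k := by omega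
        rw [h3]
        push_cast
        rfl
      rw [h2]
      push_cast
      rfl
    have h2 : ‖∑ n ∈ Ioc Y X, ((tw ξ i n * lr (n + k) : ℝ) : ℂ)‖ ≤ 2 * M := by
      rw [sum_Ioc_sub' _ hYX]
      refine (norm_sub_le _ _).trans ?_
      linarith [h1 X hX, h1 Y hYr]
    rw [← Complex.ofReal_sum, Complex.norm_real, Real.norm_eq_abs] at h2
    exact h2
  have hP : ∀ n, prodL k n = Pool.Agent.TH893.CL.Pk lr k n := fun n => rfl
  have h0 := Pool.Agent.TH893.CL.twist_le (l := lr) lr_pm k hξ hYX (M := 2 * M)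
    (by simpa [tw] using key 0 (by norm_num)) (by simpa [tw] using key 2 (by norm_num))
    (by simpa [tw] using key 1 (by norm_num)) (by simpa [tw] using key 3 (by norm_num))
  simp only [hP]
  linarith

/-- Let `μ` be a probability measure on `[-B, B]` with `|μ^(ξ)| ≤ C |ξ| ^ (-σ)` for `|ξ| ≥ 1` and some `C` and `σ > 0`.
Let `t j ≥ 2` and `|s j| ≤ B t j` be real numbers, where `j` ranges over a set `J`, such that the sum of the
`1 / log ^ V (t j)` converges for some `V`. For every `j` let at most `log ^ T (t j)` arbitrary functions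
`ξ j l : ℕ → ℂ` bounded by `1` be given. Then for `μ`-almost every `α`, for all `A` and `U` and for all but finitely many `j`:
ALL lengths `k` with `|k - (t j α + s j)| ≤ log ^ A (t j)` are such that for ALL `l` and for ALL intervals `(Y, X]` with
`X ≤ D t j` the sum of `ξ j l n * λ(n) λ(n + 1) ... λ(n + k - 1)` over `Y < n ≤ X` is, in absolute value, at most
`(X - Y) / 2 + t j / log ^ U (t j)`. -/
theorem result (μ : Measure ℝ) [IsProbabilityMeasure μ] (B : ℝ) (hμ : ∀ᵐ α ∂μ, |α| ≤ B)
    (C σ : ℝ) (hσ : 0 < σ) (hdec : ∀ ξ : ℝ, 1 ≤ |ξ| → ‖charFun μ ξ‖ ≤ C * |ξ| ^ (-σ))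
    (J : Type) (t s : J → ℝ) (ht : ∀ j, 2 ≤ t j) (hs : ∀ j, |s j| ≤ B * t j)
    (hsum : ∃ V : ℕ, Summable fun j => 1 / Real.log (t j) ^ V)
    (D T : ℕ) (L : J → ℕ) (hL : ∀ j, (L j : ℝ) ≤ Real.log (t j) ^ T)
    (ξ : (j : J) → Fin (L j) → ℕ → ℂ) (hξ : ∀ j l n, ‖ξ j l n‖ ≤ 1) :
    ∀ᵐ α ∂μ, ∀ A U : ℕ,
      {j | ¬ ∀ k : ℕ, |(k : ℝ) - (t j * α + s j)| ≤ Real.log (t j) ^ A → ∀ l, ∀ Y X : ℕ, Y ≤ X → (X : ℝ) ≤ D * t j →
        ‖∑ n ∈ Ioc Y X, ξ j l n * (prodL k n : ℂ)‖ ≤ ((X : ℝ) - Y) / 2 + t j / Real.log (t j) ^ U}.Finite := by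
  classical
  obtain ⟨V, hV⟩ := hsum
  obtain ⟨B', hB'⟩ : ∃ B' : ℝ, B' = |B| + D + 1 := ⟨_, rfl⟩
  have hB0 : 0 < B' := by rw [hB']; positivity
  have hBB : B ≤ B' := by
    rw [hB']
    have := le_abs_self B
    have h2 : (0 : ℝ) ≤ D := Nat.cast_nonneg _
    linarith
  have hDB : (D : ℝ) ≤ B' := by rw [hB']; linarith [abs_nonneg B]
  have hlt : ∀ j (q : ℕ), q < 4 * L j → q / 4 < L j := fun j q hq => by omega
  have h := Pool.Agent.V11290.FD.corr_ae Pool.Agent.H373R2.T7.liR Pool.Agent.W93.LM.nice_liR B' C σ hB0 hσ μ hdec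
    (by filter_upwards [hμ] with α hα using hα.trans hBB) t s ht V hV
    (fun j => (hs j).trans (mul_le_mul_of_nonneg_right hBB (by linarith [ht j]))) (T + 1) (fun j => 4 * L j) (Real.exp 4)
    (fun j hj => by
      have hlog : 4 ≤ Real.log (t j) := by
        rw [Real.le_log_iff_exp_le (by linarith [ht j])]
        exact hj
      push_cast
      calc (4 : ℝ) * L j ≤ Real.log (t j) * Real.log (t j) ^ T := mul_le_mul hlog (hL j) (Nat.cast_nonneg _) (by linarith)
        _ = Real.log (t j) ^ (T + 1) := by ring)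
    (fun j q n => if hq : q < 4 * L j then ((tw (ξ j ⟨q / 4, hlt j q hq⟩) (q % 4) n : ℝ) : ℂ) else 0)
    (fun j hj q hq n _ _ => by
      have hlog : 4 ≤ Real.log (t j) := by
        rw [Real.le_log_iff_exp_le (by linarith [ht j])]
        exact hj
      rw [dif_pos hq, Complex.norm_real, Real.norm_eq_abs]
      exact (tw_le _ (hξ j _) _ _).trans (one_le_pow₀ (by linarith)))
  filter_upwards [h] with α hα A U
  obtain ⟨t₁, ht₁⟩ := Pool.Agent.V11290.FD.log_pow_le U (1 / 2) (by norm_num)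
  have hsmall := Pool.Agent.V11290.FD.small_fin t ht V hV (max t₁ (Real.exp 8))
  refine ((hα A (U + 1)).union hsmall).subset ?_
  intro j hj
  rw [Set.mem_ofPred_eq] at hj
  by_cases h3 : t j < max t₁ (Real.exp 8)
  · right
    exact h3
  left
  rw [not_lt] at h3
  have q1 : t₁ ≤ t j := (le_max_left _ _).trans h3
  have q2 : Real.exp 8 ≤ t j := (le_max_right _ _).trans h3
  have htj := ht j
  have hlog : 8 ≤ Real.log (t j) := by
    rw [Real.le_log_iff_exp_le (by linarith)]
    exact q2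
  have hlog0 : 0 < Real.log (t j) := by linarith
  have hlp := ht₁ (t j) q1
  rw [Set.mem_ofPred_eq]
  intro hall
  apply hj
  intro k hk l Y X hYX hX
  have h1 := half_of k (D * t j) (ξ j l) (hξ j l) (t j / Real.log (t j) ^ (U + 1)) (fun i hi Z hZ => by
    have h4 := hall (k : ℤ) (by exact_mod_cast hk) (4 * (l : ℕ) + i) (by have := l.2; omega) Z
      (hZ.trans (mul_le_mul_of_nonneg_right hDB (by linarith)))
    have h5 : 4 * (l : ℕ) + i < 4 * L j := by have := l.2; omega
    refine le_trans (le_of_eq ?_) h4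
    congr 1
    apply sum_congr rfl
    intro n _
    rw [dif_pos h5]
    have h6 : (4 * (l : ℕ) + i) / 4 = (l : ℕ) := by omega
    have h7 : (4 * (l : ℕ) + i) % 4 = i := by omega
    have h8 : (⟨(4 * (l : ℕ) + i) / 4, hlt j _ h5⟩ : Fin (L j)) = l := Fin.ext h6
    rw [h8, h7]) Y X hYX hX
  refine h1.trans ?_
  have h9 : 4 * (t j / Real.log (t j) ^ (U + 1)) + 1 ≤ t j / Real.log (t j) ^ U := by
    have e1 : t j / Real.log (t j) ^ U = Real.log (t j) * (t j / Real.log (t j) ^ (U + 1)) := by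
      rw [pow_succ]
      field_simp
    have hpos : 0 < t j / Real.log (t j) ^ (U + 1) := by positivity
    have h10 : 2 ≤ t j / Real.log (t j) ^ U := by
      rw [le_div_iff₀ (by positivity)]
      linarith
    have h11 : 4 * (t j / Real.log (t j) ^ (U + 1)) ≤ t j / Real.log (t j) ^ U / 2 := by
      rw [e1]
      nlinarith
    linarith
  linarith

end Pool.Agent.Results.MP_a14ce1_nt.FourierDecay
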