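import Pool.Agent.V1213.CH.Equiv

/-!
# Products of consecutive Liouville values: all minor arc phases, sign patterns and `α n` modulo `1`

For a finite set `H` of shifts let `prodLam H n = ∏_{h ∈ H} λ(n + h)`; for `H = {0, …, k - 1}` these are the products
`λ(n) λ(n+1) ⋯ λ(n+k-1)` of the problem.  We prove, for every `k` and unconditionally:

1. (all phases on the minor arcs) for all scales `N ≤ X` outside a set of small logarithmic measure, for all real
   `α` at a distance of at least `R / N` from the fractions with denominator at most `R`, all `y ≤ N` and all the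
   products of length at most `k`, the sum of `prodLam H n e(α n)` over `n ≤ y` is at most `ε N` in absolute value
   (also for the most difficult products, of even length `≥ 4`; `α` may depend on `N`, `y` and `H`);
2. (sign patterns) for the same `N`, `y`, `α` the `n ≤ y` with a given pattern `s` of `λ(n), …, λ(n+k-1)` and with
   `{α n}` in a given interval `[u, v)` are `(v - u)` times as many as the `n ≤ y` with the pattern `s`, up to `ε N`;
   so the sum of the problem does not change, up to the factor `v - u`, if it is restricted to a Bohr set;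
3. for a fixed irrational `α` both hold at all scales `N` outside a set of logarithmic density zero;
4. hence, for every `H`, smallness of the sums of `prodLam H n` over the `n ≤ N` in each progression, for `N`
   outside sets of logarithmic density zero, is EQUIVALENT to smallness of `sup_α sup_{y ≤ N}` of the sums of
   `prodLam H n e(α n)` over `n ≤ y`, for `N` outside sets of logarithmic density zero.
-/

set_option autoImplicit false

namespace Pool.Agent.Results.MP_a14ce1_nt.MinorArcsAndPatterns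

open Finset Filter Topology

/-- The Liouville function `λ(n) = (-1) ^ Ω(n)`. -/
def lam (n : ℕ) : ℤ := (-1) ^ ArithmeticFunction.cardFactors n

/-- `∏_{h ∈ H} λ(n + h)`; for `H = {0, …, k - 1}` this is `λ(n) λ(n+1) ⋯ λ(n+k-1)`. -/
def prodLam (H : Finset ℕ) (n : ℕ) : ℤ := ∏ h ∈ H, lam (n + h)

/-- `e(x) = exp(2 π i x)` -/
noncomputable def e (x : ℝ) : ℂ := Complex.exp (2 * Real.pi * x * Complex.I)

/-- `∑_{1 ≤ n ≤ y} ∏_{h ∈ H} λ(n + h) e(α n)`; for `α = 0` this is the sum of the problem, up to `y`. -/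
noncomputable def S (H : Finset ℕ) (y : ℕ) (α : ℝ) : ℂ := ∑ n ∈ Icc 1 y, (prodLam H n : ℂ) * e (α * n)

/-- `λ(n) = s 0, …, λ(n + k - 1) = s (k - 1)`. -/
def Pattern (k : ℕ) (s : ℕ → ℤ) (n : ℕ) : Prop := ∀ i < k, lam (n + i) = s i

open Classical in
/-- The number of the `n`, `1 ≤ n ≤ y`, with the pattern `s`. -/
noncomputable def patternCount (k : ℕ) (s : ℕ → ℤ) (y : ℕ) : ℕ := ((Icc 1 y).filter fun n => Pattern k s n).card

open Classical in
/-- The number of the `n`, `1 ≤ n ≤ y`, with the pattern `s` and with the fractional part of `α n` in `[u, v)`. -/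
noncomputable def patternBohrCount (k : ℕ) (s : ℕ → ℤ) (y : ℕ) (α u v : ℝ) : ℕ :=
  ((Icc 1 y).filter fun n => Pattern k s n ∧ u ≤ Int.fract (α * n) ∧ Int.fract (α * n) < v).card

open Classical in
/-- `E` has logarithmic density zero. -/
def LogNull (E : Set ℕ) : Prop :=
  Tendsto (fun X : ℕ => (∑ n ∈ Icc 1 X, if n ∈ E then (1 : ℝ) / n else 0) / Real.log X) atTop (𝓝 0)

/-- `α` is on the minor arcs of level `R` at the scale `N`: `|α - A / q| ≥ R / N` for all fractions `A / q` with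
`1 ≤ q ≤ R`. -/
def Minor (R N : ℕ) (α : ℝ) : Prop :=
  ∀ q : ℕ, 1 ≤ q → q ≤ R → ∀ A : ℤ, (R : ℝ) ≤ |α - A / q| * N

/-- For all products of length at most `k` and all sign patterns of length `k`, up to `y`, with the phase `α`:
the sums are at most `ε N`, and the pattern is equidistributed with respect to `α n` modulo `1` up to `ε N`. -/
def Good (k : ℕ) (ε : ℝ) (N y : ℕ) (α : ℝ) : Prop :=
  (∀ H ⊆ range k, ‖S H y α‖ ≤ ε * N) ∧
  ∀ (s : ℕ → ℤ) (u v : ℝ), 0 ≤ u → u ≤ v → v ≤ 1 →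
    |(patternBohrCount k s y α u v : ℝ) - (v - u) * patternCount k s y| ≤ ε * N

theorem result :
    (∀ (k : ℕ) (ε : ℝ), 0 < ε → ∃ R X₀ : ℕ, ∀ X : ℕ, X₀ ≤ X → ∃ T ⊆ Icc 1 X,
      ∑ N ∈ T, (1 : ℝ) / N ≤ ε * Real.log X ∧
      ∀ N ∈ Icc 1 X, N ∉ T → ∀ α : ℝ, Minor R N α → ∀ y ≤ N, Good k ε N y α) ∧
    (∀ (α : ℝ), Irrational α → ∀ (k : ℕ) (ε : ℝ), 0 < ε → LogNull {N : ℕ | ¬ ∀ y ≤ N, Good k ε N y α}) ∧
    (∀ H : Finset ℕ,
      (∀ q a : ℕ, 1 ≤ q → ∀ ε : ℝ, 0 < ε →
        LogNull {N : ℕ | ε * N < |∑ n ∈ (Icc 1 N).filter (fun n => n % q = a), (prodLam H n : ℝ)|}) ↔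
      ∀ ε : ℝ, 0 < ε → LogNull {N : ℕ | ∃ α : ℝ, ∃ y ≤ N, ε * N < ‖S H y α‖}) := by
  have h1 : ∀ (k : ℕ) (ε : ℝ), 0 < ε → ∃ R X₀ : ℕ, ∀ X : ℕ, X₀ ≤ X → ∃ T ⊆ Icc 1 X,
      ∑ N ∈ T, (1 : ℝ) / N ≤ ε * Real.log X ∧
      ∀ N ∈ Icc 1 X, N ∉ T → ∀ α : ℝ, Minor R N α → ∀ y ≤ N, Good k ε N y α :=
    fun k ε hε => Pool.Agent.V1213.CH.main_unif k ε hε
  refine ⟨h1, fun α hα k ε hε => ?_, fun H => Pool.Agent.V1213.CH.equivalence H⟩
  refine Pool.Agent.V1213.CH.LZ_of_unif (fun ε N α => ∀ y ≤ N, Good k ε N y α) ?_ (h1 k) α hα ε hε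
  intro ε ε' N α hεε h y hy
  obtain ⟨h2, h3⟩ := h y hy
  have h4 : ε * N ≤ ε' * N := mul_le_mul_of_nonneg_right hεε (Nat.cast_nonneg N)
  exact ⟨fun H hH => (h2 H hH).trans h4, fun s u v hu huv hv => (h3 s u v hu huv hv).trans h4⟩

end Pool.Agent.Results.MP_a14ce1_nt.MinorArcsAndPatterns
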