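import Pool.Agent.V11251.DS.Len

/-!
# Sums of products of consecutive values of the Liouville function whose number is a palindrome

The analytic input (exponential sum bounds for the Liouville function, the law of the palindromes) is in the
starting files `Pool.Agent.H807R2.Dav`, `Pool.Agent.H373R2.T7`, `Pool.Agent.W93.AU`, `Pool.Agent.TH872`; the passage from
correlations of two values to products of consecutive values is in the starting files `Pool.Agent.TH893.CL`.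
-/

set_option autoImplicit false

namespace Pool.Agent.Results.MP_a14ce1_nt.PalindromicLengths

open Finset

/-- The product `λ (a n + c) λ (a (n + 1) + c) ⋯ λ (a (n + v - 1) + c)` of `v` values of the Liouville function (of `v`
consecutive values `λ (n) λ (n + 1) ⋯ λ (n + v - 1)`, if `a = 1` and `c = 0`), with complex values. -/
noncomputable def prodL (a c v n : ℕ) : ℂ := ∏ j ∈ range v, (-1 : ℂ) ^ ArithmeticFunction.cardFactors (a * (n + j) + c)

/-- `v` is a palindrome with exactly `k` digits in base `b`: the digit number `j` (which is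
`v / b ^ j % b`) is equal to the digit number `k - 1 - j`, for all `j < k`. -/
def IsPalindrome (b k v : ℕ) : Prop :=
  b ^ (k - 1) ≤ v ∧ v < b ^ k ∧ ∀ j < k, v / b ^ j % b = v / b ^ (k - 1 - j) % b

open Classical in
/-- The number of the palindromes with `k` digits in base `b` which have the property `E`. -/
noncomputable def num (b k : ℕ) (E : ℕ → Prop) : ℕ :=
  ((range (b ^ k)).filter (fun v => IsPalindrome b k v ∧ E v)).card

lemma num_le {b k : ℕ} {E F : ℕ → Prop} (h : ∀ v, E v → F v) : num b k E ≤ Pool.Agent.TH872.Tr.num b k F := by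
  classical
  unfold num Pool.Agent.TH872.Tr.num
  apply card_le_card
  intro v hv
  rw [mem_filter] at hv ⊢
  exact ⟨hv.1, hv.2.1, h v hv.2.2⟩

/-- Let the base `b ≥ 2`, `a ≥ 1`, `κ ≥ 1` and `B`, `T`, `U` be fixed. Let `k` be large, let `c, r ≤ B b ^ k`, and let at
most `k ^ T` arbitrary weights `ξ l : ℕ → ℂ`, bounded by `1`, be given (for example `ξ = 1`). Then all the palindromes `v`
with exactly `k` digits in base `b`, with the exception of a proportion of at most `1 / k ^ U` of them, have the following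
property: the sums of the products of `r + κ v` (of `v`, if `r = 0` and `κ = 1`) consecutive values of the Liouville
function along the progression `a n + c` satisfy
`|∑_{Y < n ≤ X} ξ l (n) λ (a n + c) ⋯ λ (a (n + r + κ v - 1) + c)| ≤ (X - Y) / 2 + b ^ k / k ^ U`
for all `l` and for ALL the intervals `(Y, X]` with `X ≤ B b ^ k`. -/
theorem result (b : ℕ) (hb : 2 ≤ b) (a : ℕ) (ha : 1 ≤ a) (κ : ℕ) (hκ : 1 ≤ κ) (B T U : ℕ) :
    ∃ k₀ : ℕ, ∀ k, k₀ ≤ k → ∀ c r : ℕ, c ≤ B * b ^ k → r ≤ B * b ^ k →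
      ∀ L : ℕ, (L : ℝ) ≤ (k : ℝ) ^ T → ∀ ξ : Fin L → ℕ → ℂ, (∀ l n, ‖ξ l n‖ ≤ 1) →
        (num b k (fun v => ¬ ∀ l, ∀ Y X : ℕ, Y ≤ X → X ≤ B * b ^ k →
          ‖∑ n ∈ Ioc Y X, ξ l n * prodL a c (r + κ * v) n‖ ≤ ((X : ℝ) - Y) / 2 + (b : ℝ) ^ k / (k : ℝ) ^ U) : ℝ) ≤
          num b k (fun _ => True) / (k : ℝ) ^ U := by
  have hκ' : ((a * κ : ℕ) : ℤ) ≠ 0 := by exact_mod_cast (Nat.mul_pos ha hκ).ne'
  obtain ⟨k1, h1⟩ := Pool.Agent.TH872.Tr.transfer b ((1 + a) * B) (U + 1) hb ((a * κ : ℕ) : ℤ) _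
    (Pool.Agent.V11251.DS.pal_corr b ((1 + a) * B) (T + 1) (U + 1) hb Pool.Agent.H373R2.T7.liR Pool.Agent.W93.LM.nice_liR
      ((a * κ : ℕ) : ℤ) hκ') 1 one_pos
  obtain ⟨k2, h2⟩ := Pool.Agent.V11251.DS.err_small b U hb
  refine ⟨k1 + k2 + 5, fun k hk c r hc hr L hL ξ hξ => ?_⟩
  have hk1 : (1 : ℝ) ≤ k := by exact_mod_cast (by omega : 1 ≤ k)
  have hP : ∀ v n : ℕ, prodL a c v n = ((Pool.Agent.TH893.CL.Pk (Pool.Agent.V11251.DS.lq a c) v n : ℝ) : ℂ) := by
    intro v n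
    unfold prodL Pool.Agent.TH893.CL.Pk Pool.Agent.V11251.DS.lq
    push_cast
    rfl
  have hbk : 0 < b ^ k := by positivity
  have hc' : |((c + a * r : ℕ) : ℤ)| ≤ (((1 + a) * B : ℕ) : ℤ) * (b : ℤ) ^ k := by
    rw [abs_of_nonneg (by positivity)]
    have h5 : c + a * r ≤ (1 + a) * B * b ^ k := by
      calc c + a * r ≤ B * b ^ k + a * (B * b ^ k) := add_le_add hc (Nat.mul_le_mul_left _ hr)
        _ = _ := by ring
    exact_mod_cast h5
  have hL' : ((4 * L : ℕ) : ℝ) ≤ (k : ℝ) ^ (T + 1) := by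
    have h4 : (4 : ℝ) ≤ k := by exact_mod_cast (by omega : 4 ≤ k)
    have h6 : (0 : ℝ) ≤ (k : ℝ) ^ T := by positivity
    push_cast
    rw [pow_succ]
    nlinarith
  have hkT : (1 : ℝ) ≤ (k : ℝ) ^ (T + 1) := one_le_pow₀ hk1
  have h3 := (h1 k (by omega) ((c + a * r : ℕ) : ℤ) hc'
    (Pool.Agent.V11251.DS.LenBad a c (B * b ^ k) ξ (((b ^ k : ℕ) : ℝ) / (k : ℝ) ^ (U + 1))) (by
      refine ⟨4 * L, Pool.Agent.V11251.DS.gg4 a c L ξ, hL', fun i _ m _ _ =>
        (Pool.Agent.V11251.DS.gg4_le a c L ξ hξ i m).trans hkT, fun s hs => ?_⟩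
      obtain ⟨l, t, ht, x, hx, hlt⟩ := hs
      have hl := l.2
      refine ⟨4 * (l : ℕ) + t, by omega, a * x, ?_, ?_⟩
      · calc a * x ≤ a * (B * b ^ k) := Nat.mul_le_mul_left _ hx
          _ ≤ a * (B * b ^ k) + B * b ^ k := Nat.le_add_right _ _
          _ = _ := by ring
      · rw [← Pool.Agent.V11251.DS.gg4_sum a c L ha ξ l t ht x s]
        exact hlt)).2
  have h4 : (num b k (fun v => ¬ ∀ l, ∀ Y X : ℕ, Y ≤ X → X ≤ B * b ^ k →
          ‖∑ n ∈ Ioc Y X, ξ l n * prodL a c (r + κ * v) n‖ ≤ ((X : ℝ) - Y) / 2 + (b : ℝ) ^ k / (k : ℝ) ^ U) : ℝ) ≤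
      (Pool.Agent.TH872.Tr.num b k (fun v => Pool.Agent.V11251.DS.LenBad a c (B * b ^ k) ξ (((b ^ k : ℕ) : ℝ) / (k : ℝ) ^ (U + 1))
        (((c + a * r : ℕ) : ℤ) + ((a * κ : ℕ) : ℤ) * v)) : ℝ) := by
    refine Nat.cast_le.2 (num_le ?_)
    intro v hv
    by_contra hcon
    apply hv
    intro l Y X hYX hX
    have e1 : (((c + a * r : ℕ) : ℤ) + ((a * κ : ℕ) : ℤ) * v) = ((c + a * (r + κ * v) : ℕ) : ℤ) := by push_cast; ring
    have hcon' : ¬ Pool.Agent.V11251.DS.LenBad a c (B * b ^ k) ξ (((b ^ k : ℕ) : ℝ) / (k : ℝ) ^ (U + 1))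
        ((c + a * (r + κ * v) : ℕ) : ℤ) := by
      rw [← e1]
      exact hcon
    have h5 := Pool.Agent.V11251.DS.half_ok b U a c k (r + κ * v) L (B * b ^ k) ha ξ hξ (h2 k (by omega)) hcon' l Y X hYX hX
    simp only [hP]
    exact h5
  refine h4.trans (h3.trans ?_)
  apply div_le_div_of_nonneg_left (Nat.cast_nonneg _) (by positivity)
  exact pow_le_pow_right₀ hk1 (by omega)

end Pool.Agent.Results.MP_a14ce1_nt.PalindromicLengths
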